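import Mathlib

set_option autoImplicit false

namespace Pool.Agent.H.MP_c40ba2_an
open Metric Set Filter Topology

lemma cauchy {f : ℂ → ℂ} {U : Set ℂ} (hf : DifferentiableOn ℂ f U) {c : ℂ} {R C : ℝ} (hR : 0 < R)
    (hU : closedBall c R ⊆ U) (hC : ∀ z ∈ closedBall c R, ‖f z‖ ≤ C) (n : ℕ) :
    ‖iteratedDeriv n f c‖ ≤ n.factorial * C / R ^ n :=
  Complex.norm_iteratedDeriv_le_of_forall_mem_sphere_norm_le n hR
    (DifferentiableOn.diffContOnCl (hf.mono (by rwa [closure_ball c hR.ne'])))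
    fun z hz => hC z (sphere_subset_closedBall hz)

lemma exlog {f : ℂ → ℂ} {c : ℂ} {S : ℝ} (hS : 0 < S) (hf : DifferentiableOn ℂ f (ball c S))
    (h0 : ∀ z ∈ ball c S, f z ≠ 0) :
    ∃ B : ℂ → ℂ, B c = 0 ∧ (∀ z ∈ ball c S, HasDerivAt B (deriv f z / f z) z) ∧
      ∀ z ∈ ball c S, f z = f c * Complex.exp (B z) := by
  have hd : DifferentiableOn ℂ (fun z => deriv f z / f z) (ball c S) :=
    (hf.deriv isOpen_ball).div hf h0
  obtain ⟨B, hB0, hB⟩ := hd.isExactOn_ball.with_val_at c 0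
  refine ⟨B, hB0, hB, fun z hz => ?_⟩
  have h1 : ∀ w ∈ ball c S, HasDerivAt (fun w => f w * Complex.exp (-B w)) 0 w := by
    intro w hw
    have a := ((hf.differentiableAt (isOpen_ball.mem_nhds hw)).hasDerivAt).mul (hB w hw).neg.cexp
    have e : deriv f w * Complex.exp ((-B) w) + f w * (Complex.exp ((-B) w) * -(deriv f w / f w))
        = 0 := by
      have := h0 w hw
      field_simp
      ring
    rw [e] at a
    exact a
  have h2 := (isOpen_ball.is_const_of_deriv_eq_zero (convex_ball c S).isPreconnected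
    (fun w hw => (h1 w hw).differentiableAt.differentiableWithinAt)
    (fun w hw => (h1 w hw).deriv) hz (mem_ball_self hS))
  simp only [hB0, neg_zero, Complex.exp_zero, mul_one] at h2
  rw [← h2, mul_assoc, ← Complex.exp_add]
  simp

lemma bc2 {f : ℂ → ℂ} {c : ℂ} {S M σ : ℝ} (hM : 0 < M) (hσ : 0 < σ) (hσS : σ ≤ S / 4)
    (hf : DifferentiableOn ℂ f (ball c S)) (h0 : ∀ z ∈ ball c S, f z ≠ 0)
    (hb : ∀ z ∈ ball c S, ‖f z‖ ≤ ‖f c‖ * Real.exp M) :
    ‖iteratedDeriv 2 f c / f c - (deriv f c / f c) ^ 2‖ ≤ 64 * M / S ^ 2 ∧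
    ∀ η : ℝ, σ * (‖deriv f c / f c‖ + 64 * M / S ^ 2 * σ) ≤ η → η ≤ 1 → ∀ n, 1 ≤ n →
      ‖iteratedDeriv n f c‖ ≤ n.factorial * (2 * η * ‖f c‖) / σ ^ n := by
  have hS : 0 < S := by linarith
  obtain ⟨B, hB0, hB, hfB⟩ := exlog hS hf h0
  have hc := h0 c (mem_ball_self hS)
  have hBd : DifferentiableOn ℂ B (ball c S) := fun z hz =>
    (hB z hz).differentiableAt.differentiableWithinAt
  have hre : ∀ z ∈ ball c S, (B z).re ≤ M := by
    intro z hz
    have := hb z hz
    rw [hfB z hz, norm_mul, Complex.norm_exp] at this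
    exact Real.exp_le_exp.mp (le_of_mul_le_mul_left this (norm_pos_iff.mpr hc))
  have hB2 : ∀ z ∈ closedBall c (S / 2), ‖B z‖ ≤ 2 * M := by
    intro z hz
    rw [mem_closedBall_iff_norm] at hz
    have hm : ∀ u ∈ ball (0:ℂ) S, c + u ∈ ball c S := fun u hu => by simpa using hu
    have := Complex.borelCaratheodory_zero (f := fun u => B (c + u)) (z := z - c) hM
      (hBd.comp (by fun_prop) hm) (fun u hu => hre _ (hm u hu)) hS
      (by rw [mem_ball_zero_iff]; linarith) (by simpa using hB0)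
    simp only [add_sub_cancel] at this
    refine this.trans ?_
    rw [div_le_iff₀ (by linarith)]
    nlinarith
  have hL : ∀ z ∈ ball c S, deriv B z = deriv f z / f z := fun z hz => (hB z hz).deriv
  have hB3 : ∀ z ∈ closedBall c (S / 4), ‖deriv (deriv B) z‖ ≤ 64 * M / S ^ 2 := by
    intro z hz
    have hsub : closedBall z (S / 4) ⊆ closedBall c (S / 2) :=
      closedBall_subset_closedBall' (by rw [mem_closedBall] at hz; linarith)
    have := cauchy hBd (c := z) (by positivity : 0 < S / 4)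
      (hsub.trans (closedBall_subset_ball (by linarith))) (fun w hw => hB2 w (hsub hw)) 2
    rw [iteratedDeriv_succ, iteratedDeriv_one] at this
    refine this.trans (le_of_eq ?_)
    simp only [Nat.factorial]
    field_simp
    norm_num
  have hs4 : closedBall c (S / 4) ⊆ ball c S := closedBall_subset_ball (by linarith)
  have hdB : DifferentiableOn ℂ (deriv B) (ball c S) := hBd.deriv isOpen_ball
  refine ⟨?_, fun η h1 h2 n hn => ?_⟩
  · have e1 : deriv f =ᶠ[𝓝 c] fun z => f z * deriv B z := by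
      filter_upwards [isOpen_ball.mem_nhds (mem_ball_self hS)] with z hz
      rw [hL z hz]
      have := h0 z hz
      field_simp
    have e2 := ((hf.differentiableAt (isOpen_ball.mem_nhds (mem_ball_self hS))).hasDerivAt.mul
      (hdB.differentiableAt (isOpen_ball.mem_nhds (mem_ball_self hS))).hasDerivAt).deriv
    have e3 : iteratedDeriv 2 f c = deriv f c * deriv B c + f c * deriv (deriv B) c := by
      rw [iteratedDeriv_succ, iteratedDeriv_one, e1.deriv_eq]
      exact e2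
    have : iteratedDeriv 2 f c / f c - (deriv f c / f c) ^ 2 = deriv (deriv B) c := by
      rw [e3, hL c (mem_ball_self hS)]
      field_simp
      ring
    rw [this]
    exact hB3 c (mem_closedBall_self (by positivity))
  · have hsub : closedBall c σ ⊆ closedBall c (S / 4) := closedBall_subset_closedBall hσS
    have a1 : ∀ z ∈ closedBall c σ, ‖deriv B z‖ ≤ ‖deriv f c / f c‖ + 64 * M / S ^ 2 * σ := by
      intro z hz
      have := (convex_closedBall c σ).norm_image_sub_le_of_norm_deriv_le (f := deriv B)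
        (fun w hw => hdB.differentiableAt (isOpen_ball.mem_nhds (hs4 (hsub hw))))
        (fun w hw => hB3 w (hsub hw)) (mem_closedBall_self hσ.le) hz
      rw [hL c (mem_ball_self hS)] at this
      have b := norm_le_norm_add_norm_sub' (deriv B z) (deriv f c / f c)
      have b2 : 64 * M / S ^ 2 * ‖z - c‖ ≤ 64 * M / S ^ 2 * σ :=
        mul_le_mul_of_nonneg_left (mem_closedBall_iff_norm.mp hz) (by positivity)
      linarith
    have a2 : ∀ z ∈ closedBall c σ, ‖B z‖ ≤ η := by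
      intro z hz
      have := (convex_closedBall c σ).norm_image_sub_le_of_norm_deriv_le (f := B)
        (fun w hw => hBd.differentiableAt (isOpen_ball.mem_nhds (hs4 (hsub hw)))) a1
        (mem_closedBall_self hσ.le) hz
      rw [hB0, sub_zero] at this
      have b2 : (‖deriv f c / f c‖ + 64 * M / S ^ 2 * σ) * ‖z - c‖ ≤
          (‖deriv f c / f c‖ + 64 * M / S ^ 2 * σ) * σ :=
        mul_le_mul_of_nonneg_left (mem_closedBall_iff_norm.mp hz) (by positivity)
      linarith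
    have := cauchy (f := fun z => f z - f c) (hf.sub_const _) hσ (hsub.trans hs4)
      (C := 2 * η * ‖f c‖) (fun z hz => by
        have : f z - f c = (Complex.exp (B z) - 1) * f c := by
          rw [hfB z (hs4 (hsub hz))]; ring
        rw [this, norm_mul]
        refine mul_le_mul_of_nonneg_right ?_ (norm_nonneg _)
        exact (Complex.norm_exp_sub_one_le ((a2 z hz).trans h2)).trans (by linarith [a2 z hz])) n
    obtain ⟨m, rfl⟩ : ∃ m, n = m + 1 := ⟨n - 1, by omega⟩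
    rw [iteratedDeriv_succ', deriv_sub_const_fun, ← iteratedDeriv_succ'] at this
    exact this

lemma gron {f f' : ℂ → ℂ} {c : ℂ} {δ K : ℝ} (hK : 0 ≤ K)
    (hf : ∀ w ∈ closedBall c δ, HasDerivAt f (f' w) w)
    (hb : ∀ w ∈ closedBall c δ, ‖f' w‖ ≤ K * ‖f w‖) (w : ℂ) (hw : w ∈ closedBall c δ) :
    ‖f w‖ ≤ ‖f c‖ * Real.exp (K * δ) := by
  rw [mem_closedBall_iff_norm] at hw
  have hm : ∀ s ∈ Icc (0:ℝ) 1, c + (s:ℂ) * (w - c) ∈ closedBall c δ := by
    intro s hs
    rw [mem_closedBall_iff_norm, add_sub_cancel_left, norm_mul, Complex.norm_real,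
      Real.norm_of_nonneg hs.1]
    nlinarith [norm_nonneg (w - c), hs.1, hs.2]
  have hd : ∀ s ∈ Icc (0:ℝ) 1, HasDerivAt (fun s : ℝ => f (c + (s:ℂ) * (w - c)))
      (f' (c + (s:ℂ) * (w - c)) * (w - c)) s := by
    intro s hs
    have h1 : HasDerivAt (fun u : ℂ => c + u * (w - c)) (w - c) (s:ℂ) := by
      simpa using ((hasDerivAt_id (s:ℂ)).mul_const (w - c)).const_add c
    exact ((hf _ (hm s hs)).comp (s:ℂ) h1).comp_ofReal
  have := norm_le_gronwallBound_of_norm_deriv_right_le (δ := ‖f c‖) (K := K * δ) (ε := 0)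
    (fun s hs => (hd s hs).continuousAt.continuousWithinAt)
    (fun s hs => (hd s (Ico_subset_Icc_self hs)).hasDerivWithinAt) (by simp)
    (fun s hs => by
      rw [norm_mul, add_zero]
      have h1 := hb _ (hm s (Ico_subset_Icc_self hs))
      have h2 := mul_le_mul h1 hw (norm_nonneg _) (by positivity)
      linarith) 1 ⟨zero_le_one, le_rfl⟩
  simpa [gronwallBound_ε0] using this

lemma minmod {g : ℂ → ℂ} {r m : ℝ} (hr : 0 < r) (hm : 0 < m)
    (hg : DifferentiableOn ℂ g (closedBall 0 r)) (h0 : ∀ z ∈ closedBall (0:ℂ) r, g z ≠ 0)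
    (hb : ∀ z : ℂ, ‖z‖ = r → m ≤ ‖g z‖) (z : ℂ) (hz : z ∈ closedBall (0:ℂ) r) : m ≤ ‖g z‖ := by
  have := Complex.norm_le_of_forall_mem_frontier_norm_le (f := fun z => (g z)⁻¹) (U := ball 0 r)
    isBounded_ball (DifferentiableOn.diffContOnCl (by
      rw [closure_ball _ hr.ne']; exact hg.inv h0)) (C := m⁻¹) (fun w hw => by
      rw [frontier_ball _ hr.ne', mem_sphere_zero_iff_norm] at hw
      rw [norm_inv]
      exact inv_anti₀ hm (hb w hw)) (z := z) (by rwa [closure_ball _ hr.ne'])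
  rw [norm_inv] at this
  exact (inv_le_inv₀ (norm_pos_iff.mpr (h0 z hz)) hm).mp this

lemma bidisc {F : ℂ → ℂ → ℂ}
    (hc : ContinuousOn (fun p : ℂ × ℂ => F p.1 p.2) (ball 0 1 ×ˢ ball 0 1))
    (h1 : ∀ y ∈ ball (0:ℂ) 1, DifferentiableOn ℂ (fun x => F x y) (ball 0 1))
    (h2 : ∀ x ∈ ball (0:ℂ) 1, DifferentiableOn ℂ (fun y => F x y) (ball 0 1))
    (h0 : ∀ x y : ℂ, ‖x‖ < 1 → ‖x‖ = ‖y‖ → F x y ≠ 0) (x y : ℂ) (hx : ‖x‖ < 1) (hy : ‖y‖ < 1) :
    F x y ≠ 0 := by
  obtain ⟨r, hr1, hr2⟩ := exists_between (max_lt hx hy)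
  have hr : 0 < r := lt_of_le_of_lt (le_trans (norm_nonneg x) (le_max_left _ _)) hr1
  let K : Set (ℂ × ℂ) := closedBall 0 r ×ˢ closedBall 0 r
  have hK : IsCompact K := (isCompact_closedBall _ _).prod (isCompact_closedBall _ _)
  have hs : closedBall (0:ℂ) r ⊆ ball 0 1 := closedBall_subset_ball hr2
  have hT : IsCompact (K ∩ {p | ‖p.1‖ = ‖p.2‖}) :=
    hK.inter_right (isClosed_eq (by fun_prop) (by fun_prop))
  obtain ⟨p0, hp0, hmin⟩ := hT.exists_isMinOn (f := fun p => ‖F p.1 p.2‖)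
    ⟨(0, 0), ⟨mem_closedBall_self hr.le, mem_closedBall_self hr.le⟩, rfl⟩
    (hc.mono fun p hp => ⟨hs hp.1.1, hs hp.1.2⟩).norm
  set m := ‖F p0.1 p0.2‖ with hm
  have hm0 : 0 < m := norm_pos_iff.mpr (h0 _ _ (mem_ball_zero_iff.mp (hs hp0.1.1)) hp0.2)
  have sc : ∀ τ : ℝ, |τ| ≤ 1 → ∀ z ∈ closedBall (0:ℂ) r, (τ:ℂ) * z ∈ closedBall (0:ℂ) r := by
    intro τ hτ z hz
    rw [mem_closedBall_zero_iff] at hz ⊢
    rw [norm_mul, Complex.norm_real, Real.norm_eq_abs]
    nlinarith [norm_nonneg z, abs_nonneg τ]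
  let A : Set ℝ := {τ | ∀ p ∈ K, m ≤ ‖F (τ * p.1) (τ * p.2)‖}
  have hA : Icc (0:ℝ) 1 ⊆ A := by
    refine IsClosed.Icc_subset_of_forall_mem_nhdsWithin ?_ ?_ ?_
    · have : A ∩ Icc 0 1 = ⋂ p ∈ K, (Icc 0 1 ∩ (fun τ : ℝ => ‖F (τ * p.1) (τ * p.2)‖) ⁻¹' Ici m) := by
        ext τ
        simp only [A, mem_inter_iff, mem_setOf_eq, mem_iInter, mem_preimage, mem_Ici]
        exact ⟨fun h p hp => ⟨h.2, h.1 p hp⟩, fun h => ⟨fun p hp => (h p hp).2,
          (h (0, 0) ⟨mem_closedBall_self hr.le, mem_closedBall_self hr.le⟩).1⟩⟩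
      rw [this]
      refine isClosed_biInter fun p hp => ContinuousOn.preimage_isClosed_of_isClosed ?_
        isClosed_Icc isClosed_Ici
      refine (hc.comp (f := fun τ : ℝ => ((τ:ℂ) * p.1, (τ:ℂ) * p.2)) (by fun_prop) ?_).norm
      intro τ hτ
      have : |τ| ≤ 1 := abs_le.mpr ⟨by linarith [hτ.1], hτ.2⟩
      exact ⟨hs (sc τ this _ hp.1), hs (sc τ this _ hp.2)⟩
    · intro p _
      simpa using hmin (a := (0, 0))
        ⟨⟨mem_closedBall_self hr.le, mem_closedBall_self hr.le⟩, rfl⟩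
    · rintro τ ⟨hτA, hτ0, hτ1⟩
      have hτ : |τ| ≤ 1 := abs_le.mpr ⟨by linarith, hτ1.le⟩
      have e1 : ∀ᶠ τ' : ℝ in 𝓝 τ, ∀ p ∈ K, F (τ' * p.1) (τ' * p.2) ≠ 0 := by
        refine hK.eventually_forall_of_forall_eventually fun p hp => ?_
        have c1 : ContinuousAt (fun q : ℝ × (ℂ × ℂ) => ((q.1:ℂ) * q.2.1, (q.1:ℂ) * q.2.2))
            (τ, p) := by fun_prop
        have c2 := (hc.continuousAt ((isOpen_ball.prod isOpen_ball).mem_nhds
          (show ((τ:ℂ) * p.1, (τ:ℂ) * p.2) ∈ _ from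
            ⟨hs (sc τ hτ _ hp.1), hs (sc τ hτ _ hp.2)⟩))).comp_of_eq c1 rfl
        exact c2.eventually_ne (norm_pos_iff.mp (hm0.trans_le (hτA p hp)))
      filter_upwards [nhdsWithin_le_nhds e1, Ioo_mem_nhdsGT hτ1] with τ' h' hτ'
      have ht : |τ'| ≤ 1 := abs_le.mpr ⟨by linarith [hτ'.1], hτ'.2.le⟩
      have d : Differentiable ℂ fun z : ℂ => (τ':ℂ) * z := by fun_prop
      intro p hp
      refine minmod (g := fun z => F (τ' * z) (τ' * p.2)) hr hm0
        ((h1 _ (hs (sc τ' ht _ hp.2))).comp d.differentiableOn fun z hz => hs (sc τ' ht z hz))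
        (fun z hz => h' (z, p.2) ⟨hz, hp.2⟩) (fun z hz => ?_) _ hp.1
      have hz' : z ∈ closedBall (0:ℂ) r := mem_closedBall_zero_iff.mpr hz.le
      refine minmod (g := fun u => F (τ' * z) (τ' * u)) hr hm0
        ((h2 _ (hs (sc τ' ht _ hz'))).comp d.differentiableOn fun u hu => hs (sc τ' ht u hu))
        (fun u hu => h' (z, u) ⟨hz', hu⟩) (fun u hu => ?_) _ hp.2
      refine hmin (a := ((τ':ℂ) * z, (τ':ℂ) * u))
        ⟨⟨sc τ' ht _ hz', sc τ' ht _ (mem_closedBall_zero_iff.mpr hu.le)⟩, ?_⟩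
      simp [hz, hu]
  have := hA ⟨zero_le_one, le_rfl⟩ (x, y) ⟨mem_closedBall_zero_iff.mpr
    ((le_max_left _ _).trans hr1.le), mem_closedBall_zero_iff.mpr ((le_max_right _ _).trans hr1.le)⟩
  simp only [Complex.ofReal_one, one_mul] at this
  exact norm_pos_iff.mp (hm0.trans_le this)

end Pool.Agent.H.MP_c40ba2_an
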