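import Pool.Agent.H.MP_c40ba2_an.A

set_option autoImplicit false

namespace Pool.Agent.H.MP_c40ba2_an
open Metric Set Filter Topology

instance fact1 : Fact ((0:ℝ) < 1) := ⟨one_pos⟩

abbrev AA : Type := C(AddCircle (1:ℝ), ℂ)
noncomputable def Z : AA := fourier 1

lemma Z_norm (s : AddCircle (1:ℝ)) : ‖Z s‖ = 1 := by simp [Z]
lemma Z_pow (n : ℕ) : Z ^ n = fourier (n:ℤ) := by
  induction n with
  | zero => ext s; simp
  | succ n ih =>
    ext s
    rw [pow_succ, ih, Nat.cast_succ, fourier_add]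
    rfl
lemma Zp_norm (n : ℕ) : ‖Z ^ n‖ ≤ 1 := by rw [Z_pow, fourier_norm]

noncomputable def tc (f : ℂ → ℂ) (n : ℕ) : ℂ := iteratedDeriv n f 0 / n.factorial

lemma tc_sum {f : ℂ → ℂ} (hf : DifferentiableOn ℂ f (ball 0 1)) {z : ℂ} (hz : ‖z‖ < 1) :
    HasSum (fun n => tc f n * z ^ n) (f z) := by
  have := Complex.hasSum_taylorSeries_on_ball hf (mem_ball_zero_iff.mpr hz)
  refine (congrArg (fun g => HasSum g (f z)) (funext fun n => ?_)).mp this
  simp only [tc, sub_zero, smul_eq_mul]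
  ring

lemma tc_summ {f : ℂ → ℂ} (hf : DifferentiableOn ℂ f (ball 0 1)) {r : ℝ} (h0 : 0 ≤ r)
    (hr : r < 1) : Summable fun n => ‖tc f n‖ * r ^ n := by
  have := (tc_sum hf (z := (r:ℂ)) (by rwa [Complex.norm_real, Real.norm_of_nonneg h0])).summable
  simpa [abs_of_nonneg h0] using this.norm

noncomputable def G (κ : ℂ → ℂ) (t : ℂ) : AA := ∑' n, (tc κ n * t ^ n) • Z ^ n

lemma G_le (κ : ℂ → ℂ) (n : ℕ) {t : ℂ} {r : ℝ} (ht : ‖t‖ ≤ r) :
    ‖(tc κ n * t ^ n) • Z ^ n‖ ≤ ‖tc κ n‖ * r ^ n := by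
  rw [norm_smul, norm_mul, norm_pow]
  have h0 : 0 ≤ r := (norm_nonneg t).trans ht
  have h1 := Zp_norm n
  calc _ ≤ ‖tc κ n‖ * r ^ n * 1 := by gcongr
    _ = _ := mul_one _

lemma G_sum {κ : ℂ → ℂ} (hf : DifferentiableOn ℂ κ (ball 0 1)) {t : ℂ} (ht : ‖t‖ < 1) :
    HasSum (fun n => (tc κ n * t ^ n) • Z ^ n) (G κ t) :=
  (Summable.of_norm_bounded (tc_summ hf (norm_nonneg t) ht) fun n => G_le κ n le_rfl).hasSum

lemma G_app {κ : ℂ → ℂ} (hf : DifferentiableOn ℂ κ (ball 0 1)) {t : ℂ} (ht : ‖t‖ < 1)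
    (s : AddCircle (1:ℝ)) : G κ t s = κ (t * Z s) := by
  have h1 := (G_sum hf ht).mapL (ContinuousMap.evalCLM ℂ s)
  have h2 := tc_sum hf (z := t * Z s) (by rw [norm_mul, Z_norm, mul_one]; exact ht)
  refine h1.unique ((congrArg (fun g => HasSum g _) (funext fun n => ?_)).mp h2)
  simp [mul_pow, mul_assoc]

lemma G_diff {κ : ℂ → ℂ} (hf : DifferentiableOn ℂ κ (ball 0 1)) :
    DifferentiableOn ℂ (G κ) (ball 0 1) := by
  intro t ht
  obtain ⟨r, h1, h2⟩ := exists_between (mem_ball_zero_iff.mp ht)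
  have := Complex.differentiableOn_tsum_of_summable_norm
    (F := fun n (t : ℂ) => (tc κ n * t ^ n) • Z ^ n) (U := ball 0 r)
    (tc_summ hf ((norm_nonneg t).trans h1.le) h2) (fun n => by fun_prop) isOpen_ball
    (fun n w hw => G_le κ n (mem_ball_zero_iff.mp hw).le)
  exact (this.differentiableAt (isOpen_ball.mem_nhds (mem_ball_zero_iff.mpr h1))).differentiableWithinAt

lemma pw_diff (e : ℂ) (x : ℂ) (hx : ‖x‖ ≤ 1) :
    DifferentiableOn ℂ (fun u : ℂ => (1 + x * u) ^ e) (ball 0 1) := by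
  intro u hu
  refine (DifferentiableAt.cpow_const (by fun_prop) ?_).differentiableWithinAt
  refine Complex.mem_slitPlane_of_norm_lt_one ?_
  rw [norm_mul]
  nlinarith [mem_ball_zero_iff.mp hu, norm_nonneg u, norm_nonneg x]

noncomputable def E (e : ℂ) : ℂ → AA := G fun u => (1 + 1 * u) ^ e

lemma E_diff (e : ℂ) : DifferentiableOn ℂ (E e) (ball 0 1) := G_diff (pw_diff e 1 (by simp))

lemma E_app (e : ℂ) {t : ℂ} (ht : ‖t‖ < 1) (s : AddCircle (1:ℝ)) : E e t s = (1 + t * Z s) ^ e := by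
  rw [E, G_app (pw_diff e 1 (by simp)) ht, one_mul]

lemma slit {t : ℂ} (ht : ‖t‖ < 1) (s : AddCircle (1:ℝ)) : 1 + t * Z s ∈ Complex.slitPlane :=
  Complex.mem_slitPlane_of_norm_lt_one (by rw [norm_mul, Z_norm, mul_one]; exact ht)

lemma E_mul (a c : ℂ) {t : ℂ} (ht : ‖t‖ < 1) : E a t * E c t = E (a + c) t := by
  ext s
  rw [ContinuousMap.mul_apply, E_app _ ht, E_app _ ht, E_app _ ht,
    Complex.cpow_add _ _ (Complex.slitPlane_ne_zero (slit ht s))]

lemma E_zero (e : ℂ) : E e 0 = 1 := by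
  ext s; rw [E_app _ (by simp)]; simp

lemma E_deriv (e : ℂ) {t : ℂ} (ht : ‖t‖ < 1) : HasDerivAt (E e) (e • (Z * E (e - 1) t)) t := by
  have hm := isOpen_ball.mem_nhds (mem_ball_zero_iff.mpr ht)
  have h1 := ((E_diff e).differentiableAt hm).hasDerivAt
  have : deriv (E e) t = e • (Z * E (e - 1) t) := by
    ext s
    have a := ((ContinuousMap.evalCLM ℂ s).hasFDerivAt.comp_hasDerivAt t h1)
    have b : HasDerivAt (fun u : ℂ => (1 + u * Z s) ^ e) (e * (1 + t * Z s) ^ (e - 1) * Z s) t := by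
      have := (((hasDerivAt_id t).mul_const (Z s)).const_add 1).cpow_const (c := e) (slit ht s)
      simpa using this
    have c : (fun u : ℂ => (1 + u * Z s) ^ e) =ᶠ[𝓝 t] (ContinuousMap.evalCLM ℂ s) ∘ E e := by
      filter_upwards [hm] with u hu
      exact (E_app e (mem_ball_zero_iff.mp hu) s).symm
    have := (a.congr_of_eventuallyEq c).unique b
    simp only [ContinuousMap.evalCLM_apply] at this
    rw [this, ContinuousMap.smul_apply, ContinuousMap.mul_apply, E_app _ ht, smul_eq_mul]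
    ring
  rwa [this] at h1

noncomputable def d (e : ℂ) : ℕ → ℂ
  | 0 => 1
  | n + 1 => d e n * (e - n)

lemma LE_deriv (Λ : AA →L[ℂ] ℂ) (k : AA) (e : ℂ) {t : ℂ} (ht : ‖t‖ < 1) :
    HasDerivAt (fun u => Λ (k * E e u)) (e * Λ (k * Z * E (e - 1) t)) t := by
  have := Λ.hasFDerivAt.comp_hasDerivAt t ((E_deriv e ht).const_mul k)
  rw [mul_smul_comm, map_smul, ← mul_assoc] at this
  exact this

lemma LE_diff (Λ : AA →L[ℂ] ℂ) (k : AA) (e : ℂ) :
    DifferentiableOn ℂ (fun u => Λ (k * E e u)) (ball 0 1) := fun _ ht =>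
  (LE_deriv Λ k e (mem_ball_zero_iff.mp ht)).differentiableAt.differentiableWithinAt

lemma LE_iter (Λ : AA →L[ℂ] ℂ) (k : AA) (e : ℂ) (n : ℕ) {t : ℂ} (ht : ‖t‖ < 1) :
    iteratedDeriv n (fun u => Λ (k * E e u)) t = d e n * Λ (k * Z ^ n * E (e - n) t) := by
  induction n generalizing t with
  | zero => simp [d]
  | succ n ih =>
    have : iteratedDeriv n (fun u => Λ (k * E e u)) =ᶠ[𝓝 t]
        fun t => d e n * Λ (k * Z ^ n * E (e - n) t) := by
      filter_upwards [isOpen_ball.mem_nhds (mem_ball_zero_iff.mpr ht)] with u hu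
      exact ih (mem_ball_zero_iff.mp hu)
    rw [iteratedDeriv_succ, this.deriv_eq, ((LE_deriv Λ (k * Z ^ n) (e - n) ht).const_mul _).deriv,
      d, pow_succ, mul_assoc k]
    push_cast
    rw [sub_sub]
    ring

lemma d_low (e : ℝ) (he : e ≤ -1) (n : ℕ) : (n.factorial : ℝ) ≤ ‖d e n‖ := by
  induction n with
  | zero => simp [d]
  | succ n ih =>
    rw [d, norm_mul, Nat.factorial_succ]
    have : ((n:ℝ) + 1) ≤ ‖(e:ℂ) - n‖ := by
      rw [← Complex.ofReal_natCast, ← Complex.ofReal_sub, Complex.norm_real, Real.norm_eq_abs,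
        abs_of_nonpos (by linarith [Nat.cast_nonneg (α := ℝ) n])]
      linarith
    push_cast
    rw [mul_comm]
    exact mul_le_mul ih this (by positivity) (norm_nonneg _)

lemma d_up (e : ℂ) : ∃ D : ℝ, 0 < D ∧ ∀ n, ‖d e n‖ ≤ n.factorial * D / (3/4) ^ n := by
  have hd := LE_diff (ContinuousMap.evalCLM ℂ 0) 1 e
  have hs : closedBall (0:ℂ) (3/4) ⊆ ball 0 1 := closedBall_subset_ball (by norm_num)
  obtain ⟨D, hD⟩ := (isCompact_closedBall (0:ℂ) (3/4)).exists_bound_of_continuousOn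
    (hd.continuousOn.mono hs)
  refine ⟨max D 1, by positivity, fun n => ?_⟩
  have := cauchy hd (by norm_num : (0:ℝ) < 3/4) hs (C := max D 1)
    (fun z hz => (hD z hz).trans (le_max_left _ _)) n
  rw [LE_iter _ _ _ _ (by simp), E_zero] at this
  simpa [Z] using this

lemma exL (a : ℕ → ℂ) (ha : Summable fun n => ‖a n‖) :
    ∃ Λ : AA →L[ℂ] ℂ, ∀ n, Λ (Z ^ n) = a n := by
  let T : AA →L[ℂ] MeasureTheory.Lp ℂ 2 (AddCircle.haarAddCircle (T := 1)) :=
    ContinuousMap.toLp 2 AddCircle.haarAddCircle ℂ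
  let c : ℕ → AA →L[ℂ] ℂ := fun m => (innerSL ℂ (fourierLp 2 (m:ℤ))).comp T
  have hc : ∀ m, ‖c m‖ ≤ ‖T‖ := fun m => by
    refine (ContinuousLinearMap.opNorm_comp_le _ _).trans ?_
    rw [innerSL_apply_norm, orthonormal_fourier.1, one_mul]
  have hs : Summable fun m => a m • c m :=
    Summable.of_norm_bounded (ha.mul_right ‖T‖) fun m => by
      rw [norm_smul]; exact mul_le_mul_of_nonneg_left (hc m) (norm_nonneg _)
  refine ⟨∑' m, a m • c m, fun n => ?_⟩
  have h1 := hs.hasSum.mapL (ContinuousLinearMap.apply ℂ ℂ (Z ^ n))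
  have h2 : ∀ m, c m (Z ^ n) = if m = n then 1 else 0 := by
    intro m
    have := orthonormal_iff_ite.mp (orthonormal_fourier (T := 1)) (m:ℤ) (n:ℤ)
    rw [Z_pow]
    simp only [Nat.cast_inj] at this
    exact this
  simp only [ContinuousLinearMap.apply_apply, ContinuousLinearMap.smul_apply, h2] at h1
  refine h1.unique ?_
  have := hasSum_single (f := fun m => a m • (if m = n then (1:ℂ) else 0)) n
    (fun m hm => by simp [hm])
  simpa using this

end Pool.Agent.H.MP_c40ba2_an
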