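import Pool.Agent.H.MP_c40ba2_an.B

set_option autoImplicit false

namespace Pool.Agent.H.MP_c40ba2_an
open Metric Set Filter Topology

noncomputable def b (Λ : AA →L[ℂ] ℂ) (γ : ℝ) (n : ℕ) (w : ℂ) : ℂ := Λ (Z ^ n * E ((γ:ℂ) - n) w)

lemma b_diff (Λ : AA →L[ℂ] ℂ) (γ : ℝ) (n : ℕ) : DifferentiableOn ℂ (b Λ γ n) (ball 0 1) :=
  LE_diff Λ _ _

lemma b_iter (Λ : AA →L[ℂ] ℂ) (γ : ℝ) (n m : ℕ) {w : ℂ} (hw : ‖w‖ < 1) :
    iteratedDeriv m (b Λ γ n) w = d ((γ:ℂ) - n) m * b Λ γ (n + m) w := by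
  have := LE_iter Λ (Z ^ n) ((γ:ℂ) - n) m hw
  rw [← pow_add, sub_sub, ← Nat.cast_add] at this
  exact this

lemma b_deriv (Λ : AA →L[ℂ] ℂ) (γ : ℝ) {w : ℂ} (hw : ‖w‖ < 1) :
    HasDerivAt (b Λ γ 0) (γ * b Λ γ 1 w) w := by
  have := LE_deriv Λ (Z ^ 0) ((γ:ℂ) - (0:ℕ)) hw
  refine (congrArg (fun t => HasDerivAt (b Λ γ 0) t w) ?_).mp this
  simp [b]

lemma growth (Λ : AA →L[ℂ] ℂ) (γ : ℝ) (J : ℕ) (hJ : 1 ≤ J) (hγ : γ - J ≤ -1) (c : ℂ) (δ L : ℝ)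
    (hδ : 0 < δ) (hc : ‖c‖ + δ < 1) (hL : 0 ≤ L)
    (h : ∀ w ∈ closedBall c δ, ∀ n ≤ J, ‖b Λ γ n w‖ ≤ L ^ n * ‖b Λ γ 0 w‖) (n : ℕ) :
    ‖b Λ γ n c‖ * δ ^ n ≤ ‖b Λ γ 0 c‖ * ((1 + L * δ) ^ J * Real.exp (|γ| * L * δ)) := by
  have hs : closedBall c δ ⊆ ball 0 1 := closedBall_subset_ball' (by rw [dist_zero_right]; linarith)
  have hc1 : ‖c‖ < 1 := by linarith
  have g := gron (f := b Λ γ 0) (f' := fun w => γ * b Λ γ 1 w) (c := c) (δ := δ) (K := |γ| * L)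
    (by positivity) (fun w hw => b_deriv Λ γ (mem_ball_zero_iff.mp (hs hw))) (fun w hw => by
      rw [norm_mul, Complex.norm_real, Real.norm_eq_abs, mul_assoc]
      have := h w hw 1 hJ
      rw [pow_one] at this
      exact mul_le_mul_of_nonneg_left this (abs_nonneg _))
  have e1 : 1 ≤ Real.exp (|γ| * L * δ) := Real.one_le_exp (by positivity)
  have hLδ : 0 ≤ L * δ := by positivity
  have p1 : ∀ m ≤ J, (L * δ) ^ m ≤ (1 + L * δ) ^ J := fun m hm =>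
    (pow_le_pow_left₀ hLδ (by linarith) m).trans (pow_le_pow_right₀ (by linarith) hm)
  rcases le_total n J with hn | hn
  · have a := h c (mem_closedBall_self hδ.le) n hn
    calc _ ≤ L ^ n * ‖b Λ γ 0 c‖ * δ ^ n := by gcongr
      _ = ‖b Λ γ 0 c‖ * ((L * δ) ^ n * 1) := by rw [mul_pow]; ring
      _ ≤ _ := by have := p1 n hn; gcongr
  · obtain ⟨m, rfl⟩ := Nat.exists_eq_add_of_le hn
    have a := cauchy (b_diff Λ γ J) hδ hs
      (C := L ^ J * (‖b Λ γ 0 c‖ * Real.exp (|γ| * L * δ))) (fun w hw =>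
        (h w hw J le_rfl).trans (mul_le_mul_of_nonneg_left (g w hw) (by positivity))) m
    rw [b_iter Λ γ J m hc1, norm_mul, le_div_iff₀ (by positivity)] at a
    have a2 := d_low (γ - J) hγ m
    push_cast at a2
    have a3 : (m.factorial : ℝ) * (‖b Λ γ (J + m) c‖ * δ ^ m) ≤
        m.factorial * (L ^ J * (‖b Λ γ 0 c‖ * Real.exp (|γ| * L * δ))) := by
      refine le_trans ?_ a
      rw [mul_assoc]
      exact mul_le_mul_of_nonneg_right a2 (by positivity)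
    have a4 := le_of_mul_le_mul_left a3 (by positivity)
    calc _ = (‖b Λ γ (J + m) c‖ * δ ^ m) * δ ^ J := by rw [pow_add]; ring
      _ ≤ (L ^ J * (‖b Λ γ 0 c‖ * Real.exp (|γ| * L * δ))) * δ ^ J := by gcongr
      _ = ‖b Λ γ 0 c‖ * ((L * δ) ^ J * Real.exp (|γ| * L * δ)) := by rw [mul_pow]; ring
      _ ≤ _ := by have := p1 J le_rfl; gcongr

lemma tay_bound {f : ℂ → ℂ} {c : ℂ} {δ D B : ℝ} (hδ : 0 < δ) (hD : 0 < D)
    (hf : DifferentiableOn ℂ f (ball c (δ / 2))) (u v : ℕ → ℂ)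
    (hi : ∀ n, iteratedDeriv n f c = u n * v n) (hu : ∀ n, ‖u n‖ ≤ n.factorial * D / (3/4) ^ n)
    (hv : ∀ n, ‖v n‖ * δ ^ n ≤ B) (z : ℂ) (hz : z ∈ ball c (δ / 2)) : ‖f z‖ ≤ 3 * D * B := by
  have hs := Complex.hasSum_taylorSeries_on_ball hf hz
  have hg : HasSum (fun n : ℕ => D * B * (2/3 : ℝ) ^ n) (3 * D * B) := by
    have := (hasSum_geometric_of_lt_one (r := (2/3:ℝ)) (by norm_num) (by norm_num)).mul_left (D * B)
    refine (congrArg (HasSum _) ?_).mp this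
    ring
  refine hs.norm_le_of_bounded hg fun n => ?_
  have h1 : ‖z - c‖ ≤ δ / 2 := (mem_ball_iff_norm.mp hz).le
  have hn : (0:ℝ) < n.factorial := by positivity
  rw [norm_smul, norm_smul, norm_inv, norm_pow, hi, norm_mul, Complex.norm_natCast]
  have := hu n
  calc _ ≤ (n.factorial : ℝ)⁻¹ * ((δ / 2) ^ n * (n.factorial * D / (3/4) ^ n * ‖v n‖)) := by gcongr
    _ = D * (‖v n‖ * δ ^ n) * (2/3 : ℝ) ^ n := by
      rw [show (2/3 : ℝ) = (1/2) / (3/4) by norm_num, div_pow (1/2 : ℝ), div_pow δ, one_div_pow]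
      field_simp
    _ ≤ _ := by have := hv n; gcongr

noncomputable def F (Λ : AA →L[ℂ] ℂ) (α β : ℝ) (x y : ℂ) : ℂ := Λ (E α x * E (-β) y)

lemma F_iter_y (Λ : AA →L[ℂ] ℂ) (α β : ℝ) (n : ℕ) {w : ℂ} (hw : ‖w‖ < 1) :
    iteratedDeriv n (fun y => F Λ α β w y) w = d (-β) n * b Λ (α - β) n w := by
  unfold F b
  rw [LE_iter Λ _ _ n hw, mul_comm (E α w), mul_assoc, E_mul _ _ hw]
  congr 4
  push_cast
  ring

lemma F_iter_x (Λ : AA →L[ℂ] ℂ) (α β : ℝ) (n : ℕ) {w : ℂ} (hw : ‖w‖ < 1) :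
    iteratedDeriv n (fun x => F Λ α β x w) w = d α n * b Λ (α - β) n w := by
  unfold F b
  simp_rw [mul_comm (E α _)]
  rw [LE_iter Λ _ _ n hw, mul_comm (E (-β) w), mul_assoc, E_mul _ _ hw]
  congr 4
  push_cast
  ring

lemma F_diag (Λ : AA →L[ℂ] ℂ) (α β : ℝ) {w : ℂ} (hw : ‖w‖ < 1) :
    F Λ α β w w = b Λ (α - β) 0 w := by
  simpa [d] using F_iter_y Λ α β 0 hw

lemma F_dy (Λ : AA →L[ℂ] ℂ) (α β : ℝ) (x : ℂ) :
    DifferentiableOn ℂ (fun y => F Λ α β x y) (ball 0 1) := LE_diff Λ _ _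
lemma F_dx (Λ : AA →L[ℂ] ℂ) (α β : ℝ) (y : ℂ) :
    DifferentiableOn ℂ (fun x => F Λ α β x y) (ball 0 1) := by
  unfold F
  simp_rw [mul_comm (E α _)]
  exact LE_diff Λ _ _

lemma alg (α β θ : ℝ) (hα : 1 ≤ α) (hβ : 1 ≤ β) (v1 v2 : ℂ)
    (h1 : ‖(α:ℂ) * (α - 1) * v2 - (α * v1) ^ 2‖ ≤ θ)
    (h2 : ‖(-β:ℂ) * (-β - 1) * v2 - (-β * v1) ^ 2‖ ≤ θ) :
    ‖(-β:ℂ) * v1‖ ^ 2 ≤ θ * (β * (α ^ 2 + β ^ 2 + β)) := by
  have hθ : 0 ≤ θ := (norm_nonneg _).trans h1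
  have e : ((α * β * (α + β) : ℝ) : ℂ) * v1 ^ 2 =
      ((α * (α - 1) : ℝ) : ℂ) * ((-β:ℂ) * (-β - 1) * v2 - (-β * v1) ^ 2)
      - ((β * (β + 1) : ℝ) : ℂ) * ((α:ℂ) * (α - 1) * v2 - (α * v1) ^ 2) := by
    push_cast; ring
  have a := norm_sub_le (((α * (α - 1) : ℝ) : ℂ) * ((-β:ℂ) * (-β - 1) * v2 - (-β * v1) ^ 2))
    (((β * (β + 1) : ℝ) : ℂ) * ((α:ℂ) * (α - 1) * v2 - (α * v1) ^ 2))
  rw [← e, norm_mul, norm_mul, norm_mul, Complex.norm_real, Complex.norm_real, Complex.norm_real,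
    Real.norm_of_nonneg (by positivity), Real.norm_of_nonneg (by nlinarith),
    Real.norm_of_nonneg (by positivity), norm_pow] at a
  have a1 := mul_le_mul_of_nonneg_left h2 (show 0 ≤ α * (α - 1) by nlinarith)
  have a2 := mul_le_mul_of_nonneg_left h1 (show 0 ≤ β * (β + 1) by positivity)
  rw [norm_mul, norm_neg, Complex.norm_real, Real.norm_of_nonneg (by linarith), mul_pow]
  have a3 : α * β * (α + β) * ‖v1‖ ^ 2 ≤ θ * (α ^ 2 + β ^ 2 + β) := by nlinarith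
  have a4 : β * ‖v1‖ ^ 2 ≤ α * β * (α + β) * ‖v1‖ ^ 2 :=
    mul_le_mul_of_nonneg_right (by nlinarith [mul_nonneg (sub_nonneg.mpr hα) (by linarith : 0 ≤ β)])
      (by positivity)
  nlinarith

lemma core (α β : ℝ) (hα : 1 ≤ α) (hβ : 1 ≤ β) (J : ℕ) (hJ : 1 ≤ J) (hγ : α - β - J ≤ -1) :
    ∃ K0 : ℝ, 0 < K0 ∧ ∀ (Λ : AA →L[ℂ] ℂ), (∀ x y : ℂ, ‖x‖ < 1 → ‖y‖ < 1 → F Λ α β x y ≠ 0) →
      ∀ (c : ℂ) (δ μ : ℝ), 0 < δ → ‖c‖ + δ < 1 → 0 < μ →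
      (∀ w ∈ closedBall c δ, ∀ n ≤ J, ‖b Λ (α - β) n w‖ ≤ (2 * μ) ^ n * ‖b Λ (α - β) 0 w‖) →
      ∀ n, 1 ≤ n → ‖b Λ (α - β) n c‖ = μ ^ n * ‖b Λ (α - β) 0 c‖ → δ * μ ≤ K0 := by
  obtain ⟨D1, hD1, h1⟩ := d_up α
  obtain ⟨D2, hD2, h2⟩ := d_up (-β)
  set C1 : ℝ := 3 * (D1 + D2) + 2 * J + 2 * |α - β| with hC1
  set C2 : ℝ := β * (α ^ 2 + β ^ 2 + β) with hC2
  have hC1p : 0 < C1 := by positivity
  have hC2p : 0 < C2 := by positivity
  refine ⟨8 + 256 * C1 * (8 + 64 * C2), by positivity,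
    fun Λ hF c δ μ hδ hc hμ h n0 hn0 heq => ?_⟩
  by_contra hK
  rw [not_le] at hK
  set K := δ * μ with hKd
  have hp : 0 < 256 * C1 * (8 + 64 * C2) := by positivity
  have hK8 : 8 < K := by linarith
  have hc1 : ‖c‖ < 1 := by linarith
  have hb0 : b Λ (α - β) 0 c ≠ 0 := F_diag Λ α β hc1 ▸ hF c c hc1 hc1
  have g := growth Λ (α - β) J hJ hγ c δ (2 * μ) hδ hc (by positivity) h
  have hs : ball c (δ / 2) ⊆ ball 0 1 := ball_subset_ball' (by rw [dist_zero_right]; linarith)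
  have hexp : ∀ D, 0 < D → D ≤ D1 + D2 → 3 * D * (‖b Λ (α - β) 0 c‖ *
      ((1 + 2 * μ * δ) ^ J * Real.exp (|α - β| * (2 * μ) * δ))) ≤
      ‖b Λ (α - β) 0 c‖ * Real.exp (C1 * K) := by
    intro D hD hD'
    have a1 : 3 * D ≤ Real.exp (3 * (D1 + D2) * K) := by
      have := Real.add_one_le_exp (3 * (D1 + D2) * K)
      nlinarith
    have a2 : (1 + 2 * μ * δ) ^ J ≤ Real.exp (2 * J * K) := by
      have := Real.add_one_le_exp (2 * K)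
      calc _ ≤ Real.exp (2 * K) ^ J := pow_le_pow_left₀ (by positivity) (by linarith) J
        _ = _ := by rw [← Real.exp_nat_mul]; congr 1; ring
    have a3 : Real.exp (C1 * K) = Real.exp (3 * (D1 + D2) * K) * (Real.exp (2 * J * K) *
        Real.exp (|α - β| * (2 * μ) * δ)) := by
      rw [← Real.exp_add, ← Real.exp_add]; congr 1; rw [hC1, hKd]; ring
    rw [a3, mul_left_comm]
    gcongr
  have hσ : μ⁻¹ ≤ δ / 2 / 4 := by
    rw [inv_le_iff_one_le_mul₀ hμ]; linarith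
  have bx := bc2 (f := fun x => F Λ α β x c) (c := c) (S := δ / 2) (M := C1 * K) (σ := μ⁻¹)
    (by positivity) (by positivity) hσ ((F_dx Λ α β c).mono hs)
    (fun z hz => hF _ _ (mem_ball_zero_iff.mp (hs hz)) hc1) (fun z hz => by
      rw [F_diag Λ α β hc1]
      exact (tay_bound hδ hD1 ((F_dx Λ α β c).mono hs) _ _ (fun n => F_iter_x Λ α β n hc1) h1 g
        z hz).trans (hexp D1 hD1 (by linarith)))
  have by' := bc2 (f := fun y => F Λ α β c y) (c := c) (S := δ / 2) (M := C1 * K) (σ := μ⁻¹)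
    (by positivity) (by positivity) hσ ((F_dy Λ α β c).mono hs)
    (fun z hz => hF _ _ hc1 (mem_ball_zero_iff.mp (hs hz))) (fun z hz => by
      rw [F_diag Λ α β hc1]
      exact (tay_bound hδ hD2 ((F_dy Λ α β c).mono hs) _ _ (fun n => F_iter_y Λ α β n hc1) h2 g
        z hz).trans (hexp D2 hD2 (by linarith)))
  rw [← iteratedDeriv_one, F_iter_x Λ α β _ hc1, F_iter_x Λ α β _ hc1, F_diag Λ α β hc1] at bx
  rw [← iteratedDeriv_one, F_iter_y Λ α β _ hc1, F_iter_y Λ α β _ hc1, F_diag Λ α β hc1] at by'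
  set θ := 64 * (C1 * K) / (δ / 2) ^ 2 with hθ
  have hθ2 : θ = 256 * C1 / K * μ ^ 2 := by
    rw [hθ, hKd]; field_simp; norm_num
  set t := 256 * C1 / K with ht
  have ht0 : 0 < t := by positivity
  have ht1 : t * (8 + 64 * C2) ≤ 1 := by
    rw [ht, div_mul_eq_mul_div, div_le_one (by linarith)]; linarith
  have hal := alg α β θ hα hβ (b Λ (α - β) 1 c / b Λ (α - β) 0 c)
    (b Λ (α - β) 2 c / b Λ (α - β) 0 c)
    (by refine le_of_eq_of_le ?_ bx.1; congr 1; simp only [d]; push_cast; ring)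
    (by refine le_of_eq_of_le ?_ by'.1; congr 1; simp only [d]; push_cast; ring)
  have hq : ‖d (-β) 1 * b Λ (α - β) 1 c / b Λ (α - β) 0 c‖ ≤ μ / 8 := by
    have e : d (-β) 1 * b Λ (α - β) 1 c / b Λ (α - β) 0 c =
        (-β:ℂ) * (b Λ (α - β) 1 c / b Λ (α - β) 0 c) := by simp only [d]; push_cast; ring
    rw [e]
    refine le_of_pow_le_pow_left₀ (n := 2) (by norm_num) (by positivity) (hal.trans ?_)
    rw [hθ2, ← hC2]
    have : t * C2 ≤ 1 / 64 := by nlinarith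
    nlinarith [sq_nonneg μ]
  have fin := by'.2 (1/4) (by
    rw [hθ2]
    have e : μ⁻¹ * (μ / 8 + t * μ ^ 2 * μ⁻¹) = 1/8 + t := by field_simp
    have : t ≤ 1/8 := by nlinarith
    calc _ ≤ μ⁻¹ * (μ / 8 + t * μ ^ 2 * μ⁻¹) := by gcongr
      _ ≤ _ := by rw [e]; linarith) (by norm_num) n0 hn0
  rw [F_iter_y Λ α β _ hc1, norm_mul, heq, inv_pow, div_inv_eq_mul] at fin
  have dl := d_low (-β) (by linarith) n0
  push_cast at dl
  have p1 : 0 < μ ^ n0 * ‖b Λ (α - β) 0 c‖ := mul_pos (by positivity) (norm_pos_iff.mpr hb0)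
  have p2 : (0:ℝ) < n0.factorial := by positivity
  have p3 := mul_le_mul_of_nonneg_right dl p1.le
  nlinarith

end Pool.Agent.H.MP_c40ba2_an
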