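import Pool.Agent.H.MP_c40ba2_an.C

set_option autoImplicit false

namespace Pool.Agent.H.MP_c40ba2_an
open Metric Set Filter Topology

lemma coef (α β : ℝ) (hα : 1 ≤ α) (hβ : 1 ≤ β) (r : ℝ) (hr0 : 0 < r) (hr : r < 1) :
    ∃ C : ℝ, ∀ (Λ : AA →L[ℂ] ℂ), (∀ x y : ℂ, ‖x‖ < 1 → ‖y‖ < 1 → F Λ α β x y ≠ 0) →
      Λ 1 = 1 → ∀ n, ‖Λ (Z ^ n)‖ * r ^ n ≤ C := by
  obtain ⟨J, hJ⟩ := exists_nat_ge (max 1 (α - β + 1))
  have hJ1 : 1 ≤ J := by exact_mod_cast (le_max_left _ _).trans hJ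
  have hγ : α - β - J ≤ -1 := by linarith [le_max_right 1 (α - β + 1)]
  obtain ⟨K0, hK0, hcore⟩ := core α β hα hβ J hJ1 hγ
  set R := (1 + r) / 2 with hR
  have hR1 : R < 1 := by linarith
  have hrR : 0 < R - r := by linarith
  refine ⟨(1 + 2 * K0 / (R - r) * r) ^ J * Real.exp (|α - β| * (2 * K0 / (R - r)) * r),
    fun Λ hF h1 n => ?_⟩
  have hs : closedBall (0:ℂ) R ⊆ ball 0 1 := closedBall_subset_ball hR1
  have hb0 : ∀ w ∈ closedBall (0:ℂ) R, 0 < ‖b Λ (α - β) 0 w‖ := fun w hw => by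
    have := mem_ball_zero_iff.mp (hs hw)
    exact norm_pos_iff.mpr (F_diag Λ α β this ▸ hF w w this this)
  have hmax : ∀ n : ℕ, ∃ w ∈ closedBall (0:ℂ) R, IsMaxOn
      (fun w => (R - ‖w‖) ^ n * ‖b Λ (α - β) n w‖ / ‖b Λ (α - β) 0 w‖) (closedBall 0 R) w := by
    intro n
    refine (isCompact_closedBall _ _).exists_isMaxOn ⟨0, mem_closedBall_self (by linarith)⟩ ?_
    refine ContinuousOn.div (ContinuousOn.mul (by fun_prop)
      ((b_diff Λ _ n).continuousOn.mono hs).norm) ((b_diff Λ _ 0).continuousOn.mono hs).norm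
      fun w hw => (hb0 w hw).ne'
  choose w hw hm using hmax
  let m : ℕ → ℝ := fun n => (R - ‖w n‖) ^ n * ‖b Λ (α - β) n (w n)‖ / ‖b Λ (α - β) 0 (w n)‖
  have hRw : ∀ u ∈ closedBall (0:ℂ) R, 0 ≤ R - ‖u‖ := fun u hu =>
    sub_nonneg.mpr (mem_closedBall_zero_iff.mp hu)
  have hm0 : ∀ n, 0 ≤ m n := fun n => by
    have := hRw _ (hw n)
    positivity
  obtain ⟨n0, hn0, hmx⟩ := (Finset.Icc 1 J).exists_max_image (fun n => m n ^ ((n:ℝ)⁻¹))
    ⟨1, by simp [hJ1]⟩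
  rw [Finset.mem_Icc] at hn0
  set τ := m n0 ^ ((n0:ℝ)⁻¹) with hτ
  have hτ0 : 0 ≤ τ := Real.rpow_nonneg (hm0 _) _
  have hτ1 : τ ^ n0 = m n0 := Real.rpow_inv_natCast_pow (hm0 _) (by omega)
  have key : ∀ u ∈ closedBall (0:ℂ) R, ∀ n ≤ J,
      (R - ‖u‖) ^ n * ‖b Λ (α - β) n u‖ ≤ τ ^ n * ‖b Λ (α - β) 0 u‖ := by
    intro u hu n hn
    rcases Nat.eq_zero_or_pos n with rfl | hn'
    · simp
    rw [← div_le_iff₀ (hb0 u hu)]
    refine (hm n hu).trans ?_
    have a := hmx n (Finset.mem_Icc.mpr ⟨hn', hn⟩)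
    have a2 := pow_le_pow_left₀ (Real.rpow_nonneg (hm0 _) _) a n
    rwa [Real.rpow_inv_natCast_pow (hm0 _) hn'.ne'] at a2
  have key2 : ∀ (L s : ℝ), 0 < s → τ ≤ L * s → ∀ u ∈ closedBall (0:ℂ) R, s ≤ R - ‖u‖ → ∀ n ≤ J,
      ‖b Λ (α - β) n u‖ ≤ L ^ n * ‖b Λ (α - β) 0 u‖ := by
    intro L s hs0 hL u hu hsu n hn
    have a := key u hu n hn
    have a1 : s ^ n * ‖b Λ (α - β) n u‖ ≤ (R - ‖u‖) ^ n * ‖b Λ (α - β) n u‖ := by gcongr
    have a2 : τ ^ n * ‖b Λ (α - β) 0 u‖ ≤ (L * s) ^ n * ‖b Λ (α - β) 0 u‖ := by gcongr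
    refine le_of_mul_le_mul_left (a := s ^ n) ?_ (by positivity)
    rw [mul_pow] at a2
    linarith
  have hτK : τ ≤ 2 * K0 := by
    rcases hτ0.eq_or_lt with h | h
    · rw [← h]; positivity
    have hp : 0 < R - ‖w n0‖ := by
      refine (hRw _ (hw n0)).lt_of_ne fun h0 => ?_
      have : m n0 = 0 := by
        simp only [m, ← h0]
        rw [zero_pow (by omega)]; simp
      rw [this] at hτ1
      exact absurd hτ1 (by positivity)
    have := hcore Λ hF (w n0) ((R - ‖w n0‖) / 2) (τ / (R - ‖w n0‖)) (by positivity) (by linarith)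
      (by positivity) (fun u hu n hn => by
        have a := norm_le_norm_add_norm_sub' u (w n0)
        rw [mem_closedBall_iff_norm] at hu
        refine key2 _ ((R - ‖w n0‖) / 2) (by positivity) (le_of_eq (by field_simp)) u
          (mem_closedBall_zero_iff.mpr (by linarith)) (by linarith) n hn) n0 hn0.1 (by
        have := (hb0 _ (hw n0)).ne'
        rw [div_pow, hτ1]
        simp only [m]
        field_simp)
    have e : (R - ‖w n0‖) / 2 * (τ / (R - ‖w n0‖)) = τ / 2 := by field_simp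
    linarith
  have := growth Λ (α - β) J hJ1 hγ 0 r (2 * K0 / (R - r)) hr0 (by simpa using hr) (by positivity)
    (fun u hu n hn => by
      rw [mem_closedBall_zero_iff] at hu
      exact key2 _ (R - r) hrR (by rw [div_mul_cancel₀ _ hrR.ne']; exact hτK) u
        (mem_closedBall_zero_iff.mpr (by linarith)) (by linarith) n hn) n
  simpa [b, E_zero, h1] using this

lemma F_cont (Λ : AA →L[ℂ] ℂ) (α β : ℝ) :
    ContinuousOn (fun p : ℂ × ℂ => F Λ α β p.1 p.2) (ball 0 1 ×ˢ ball 0 1) :=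
  Λ.continuous.comp_continuousOn (((E_diff _).continuousOn.comp continuousOn_fst
    fun _ hp => hp.1).mul ((E_diff _).continuousOn.comp continuousOn_snd fun _ hp => hp.2))

lemma coef2 (α β : ℝ) (hα : 1 ≤ α) (hβ : 1 ≤ β) (r : ℝ) (hr0 : 0 < r) (hr : r < 1) :
    ∃ C : ℝ, ∀ φ : ℂ → ℂ, DifferentiableOn ℂ φ (ball 0 1) → φ 0 = 1 →
      (∀ x : ℂ, ‖x‖ = 1 → ∀ z ∈ ball (0:ℂ) 1,
        ∑' n, tc φ n * tc (fun u => (1 + x * u) ^ (α:ℂ) / (1 - u) ^ (β:ℂ)) n * z ^ n ≠ 0) →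
      ∀ n, ‖tc φ n‖ * r ^ n ≤ C := by
  obtain ⟨ρ, hρ1, hρ2⟩ := exists_between hr
  have hρ : 0 < ρ := by linarith
  obtain ⟨C, hC⟩ := coef α β hα hβ (r / ρ) (by positivity) ((div_lt_one hρ).mpr hρ1)
  refine ⟨C, fun φ hφ h0 hT n => ?_⟩
  obtain ⟨Λ, hΛ⟩ := exL (fun n => tc φ n * (ρ:ℂ) ^ n) (by
    simpa [abs_of_pos hρ] using tc_summ hφ hρ.le hρ2)
  have h1 : Λ 1 = 1 := by simpa [tc, h0] using hΛ 0
  have := hC Λ (bidisc (F_cont Λ α β) (fun y _ => F_dx Λ α β y) (fun x _ => F_dy Λ α β x)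
    (fun x y hx hxy => ?_)) h1 n
  · rw [hΛ, norm_mul, norm_pow, Complex.norm_real, Real.norm_of_nonneg hρ.le, mul_assoc,
      ← mul_pow, mul_div_cancel₀ _ hρ.ne'] at this
    exact this
  have hy : ‖y‖ < 1 := hxy ▸ hx
  by_cases hy0 : y = 0
  · have hx0 : x = 0 := by rw [← norm_eq_zero, hxy, hy0, norm_zero]
    simp [F, hx0, hy0, E_zero, h1]
  have hx' : ‖-x / y‖ = 1 := by
    rw [norm_div, norm_neg, hxy, div_self (norm_ne_zero_iff.mpr hy0)]
  have hκ : DifferentiableOn ℂ (fun u : ℂ => (1 + -x / y * u) ^ (α:ℂ) / (1 - u) ^ (β:ℂ))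
      (ball 0 1) := by
    refine (pw_diff _ _ hx'.le).div ?_ ?_
    · simpa [sub_eq_add_neg] using pw_diff (β:ℂ) (-1) (by simp)
    · intro u hu h
      have := (Complex.cpow_eq_zero_iff _ _).mp h
      have h2 : u = 1 := by linear_combination -this.1
      simp [h2] at hu
  have hny : ‖-y‖ < 1 := by rwa [norm_neg]
  have e : E α x * E (-β) y = G (fun u : ℂ => (1 + -x / y * u) ^ (α:ℂ) / (1 - u) ^ (β:ℂ)) (-y) := by
    ext s
    rw [ContinuousMap.mul_apply, E_app _ hx, E_app _ hy, G_app hκ hny, Complex.cpow_neg,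
      div_eq_mul_inv]
    congr 3
    · field_simp
    · ring
  have hs := (G_sum hκ hny).mapL Λ
  have := hT _ hx' (-y * ρ) (by
    rw [mem_ball_zero_iff, norm_mul, Complex.norm_real, Real.norm_of_nonneg hρ.le]
    nlinarith [norm_nonneg (-y)])
  rw [F, e, ← hs.tsum_eq]
  refine fun h => this (Eq.trans (tsum_congr fun n => ?_) h)
  rw [map_smul, hΛ, smul_eq_mul, mul_pow]
  ring

lemma normal (φ : ℕ → ℂ → ℂ) (hφ : ∀ k, DifferentiableOn ℂ (φ k) (ball 0 1))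
    (hb : ∀ r : ℝ, 0 < r → r < 1 → ∃ C : ℝ, ∀ k n, ‖tc (φ k) n‖ * r ^ n ≤ C) :
    ∃ (s : ℕ → ℕ) (g : ℂ → ℂ), StrictMono s ∧
      TendstoLocallyUniformlyOn (fun k => φ (s k)) g atTop (ball 0 1) := by
  obtain ⟨C, hC⟩ := hb (1/2) (by norm_num) (by norm_num)
  have hK : IsCompact (Set.pi univ fun n : ℕ => closedBall (0:ℂ) (C / (1/2) ^ n)) :=
    isCompact_univ_pi fun n => isCompact_closedBall _ _
  obtain ⟨a, -, s, hs, hlim⟩ := hK.tendsto_subseq (x := fun k n => tc (φ k) n) (fun k n _ => by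
    rw [mem_closedBall_zero_iff, le_div_iff₀ (by positivity)]; exact hC k n)
  have hl : ∀ n, Tendsto (fun k => tc (φ (s k)) n) atTop (𝓝 (a n)) := fun n =>
    tendsto_pi_nhds.mp hlim n
  refine ⟨s, fun z => ∑' n, a n * z ^ n, hs, ?_⟩
  rw [tendstoLocallyUniformlyOn_iff_forall_isCompact isOpen_ball]
  intro K hK1 hK2
  obtain ⟨r0, hr0, hKr⟩ := exists_lt_subset_ball hK2.isClosed hK1
  obtain ⟨r, hr1, hr2⟩ := exists_between (max_lt hr0 one_pos)
  have hr : 0 < r := (le_max_right _ _).trans_lt hr1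
  obtain ⟨r', hr3, hr4⟩ := exists_between hr2
  obtain ⟨D, hD⟩ := hb r' (by linarith) hr4
  have hr' : 0 < r' := by linarith
  have hD' : ∀ n, ‖a n‖ * r' ^ n ≤ D := fun n =>
    le_of_tendsto' ((hl n).norm.mul_const _) fun k => hD _ n
  have hg : Summable fun n : ℕ => D * (r / r') ^ n :=
    (summable_geometric_of_lt_one (by positivity) ((div_lt_one hr').mpr hr3)).mul_left D
  have cv : ∀ (t : ℝ) (n : ℕ), t * r' ^ n ≤ D → t * r ^ n ≤ D * (r / r') ^ n := fun t n h => by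
    have : t * r ^ n = t * r' ^ n * (r / r') ^ n := by rw [div_pow]; field_simp
    rw [this]
    exact mul_le_mul_of_nonneg_right h (by positivity)
  have bd : ∀ k n, ‖a n - tc (φ (s k)) n‖ * r ^ n ≤ D * (r / r') ^ n + D * (r / r') ^ n := by
    intro k n
    have := mul_le_mul_of_nonneg_right (norm_sub_le (a n) (tc (φ (s k)) n))
      (by positivity : 0 ≤ r ^ n)
    linarith [cv _ n (hD' n), cv _ n (hD (s k) n)]
  have T : Tendsto (fun k => ∑' n, ‖a n - tc (φ (s k)) n‖ * r ^ n) atTop (𝓝 (∑' _ : ℕ, (0:ℝ))) := by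
    refine tendsto_tsum_of_dominated_convergence (hg.add hg) (fun n => ?_)
      (Eventually.of_forall fun k n => ?_)
    · have := (((hl n).const_sub (a n)).norm.mul_const (r ^ n))
      simpa using this
    · rw [Real.norm_of_nonneg (by positivity)]; exact bd k n
  rw [tsum_zero] at T
  rw [Metric.tendstoUniformlyOn_iff]
  intro ε hε
  filter_upwards [T.eventually (gt_mem_nhds hε)] with k hk z hz
  have hz1 : ‖z‖ ≤ r := ((mem_ball_zero_iff.mp (hKr hz)).trans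
    ((le_max_left _ _).trans_lt hr1)).le
  have s1 : Summable fun n => a n * z ^ n := Summable.of_norm_bounded hg fun n => by
    rw [norm_mul, norm_pow]
    exact le_trans (by gcongr) (cv _ n (hD' n))
  have s2 := s1.hasSum.sub (tc_sum (hφ (s k)) (hz1.trans_lt hr2))
  rw [dist_eq_norm]
  refine lt_of_le_of_lt (s2.norm_le_of_bounded (Summable.of_nonneg_of_le
    (fun n => by positivity) (bd k) (hg.add hg)).hasSum fun n => ?_) hk
  rw [← sub_mul, norm_mul, norm_pow]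
  gcongr

end Pool.Agent.H.MP_c40ba2_an
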